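import Pool.Agent.H7.CP.Targets

/-!
# (HNO) there are no long sequences of disjoint classes (MP_e37c09_lc)
-/

open Ordinal Cardinal Order Set
open scoped ZFSet

universe u

namespace Pool.Agent.H68.CP.HNO

open _root_.HD

theorem few_mono {δ : Ordinal.{u}} {X Y : Set Ordinal.{u}} (h : Few δ Y) (hXY : X ⊆ Y) :
    Few δ X := by
  obtain ⟨τ, hτ, e, he⟩ := h
  exact ⟨τ, hτ, e, fun x hx => he x (hXY hx)⟩

theorem X (hLD : T_HLD.{u}) (hUQ : T_HUQ.{u}) : T_HNO.{u} := by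
  intro en hen t X H T g D G K W ht hX hH hB hK hGK hW hLM s hs hs1 hs2
  have hSH2 : T_SH2.{u} := All.sh2
  have hVA : T_VA.{u} := Pool.Agent.H3.HD.VA.X
  have hPC : T_PC.{u} := Pool.Agent.H92.HD.pc
  have hNA : T_NA.{u} := Pool.Agent.H33.HD.NA.na Pool.Agent.H20.HD.VG.vg
  have hSR : T_SR.{u} := Pool.Agent.H48.HD.SR.sr
  have hG0 : ℵ₀ ≤ G := hB.greg.aleph0_le
  have hSG : (succ G).IsRegular := Cardinal.isRegular_succ hG0
  have hDG : D < succ G := hB.dg.trans_lt (lt_succ G)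
  have hDK : D < K := hDG.trans hGK
  have hcof : K.ord.cof = K := hK.cof_ord
  let A : Ordinal.{u} → Ordinal.{u} → Prop := fun ν i =>
    ∃ (T' : Set Ordinal.{u}) (g' : Ordinal.{u} → Ordinal.{u}),
      LMh en t X H ν T' g' ∧ Pos om ν {γ | γ ∈ T' ∧ s (t γ (g' γ)) i}
  have hA : DR A := by
    refine hLD en hen t X H ht hX hH (fun γ x w => s (t γ x) (w 1)) ?_ 0
    refine (DO.ex (R := fun y w => y = t (w 0) (w 1) ∧ s y (w 3))
      ((ht.dfn.s3 (X := fun a b y => y = t a b) 1 2 0).and (DO.s2 hs 0 4))).congr fun w => ?_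
    constructor
    · intro h; exact ⟨_, rfl, h⟩
    · rintro ⟨x, rfl, h⟩; exact h
  have hfew : ∀ ν, IsSuccLimit ν → ν.cof < D → Few D.ord {i | A ν i} := by
    intro ν hν hνD
    by_cases hne : ∃ i0, A ν i0
    · obtain ⟨i0, T1, g1, h1, h2⟩ := hne
      have hν0 : ℵ₀ < ν.cof := hPC ℵ₀ ν _ Cardinal.isRegular_aleph0 hν h2
      refine few_mono (hNA D ℵ₀ ν (fun b i => b ∈ T1 ∧ s (t b (g1 b)) i) hν hνD
        (fun b i i' h3 h4 => hs1 _ i i' h3.2 h4.2)) ?_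
      rintro i ⟨T', g', h3, h4⟩
      have h5 := hUQ en t X H ν T' g' T1 g1 hν0 h3 h1
      refine (pos_diff hVA hν0 h4 h5).mono fun γ _ hγ _ => ?_
      obtain ⟨⟨h6, h7⟩, h8⟩ := hγ
      have h9 : γ ∈ T1 ∧ g' γ = g1 γ := by
        by_contra h9
        refine h8 ⟨h6, ?_⟩
        by_cases h10 : γ ∈ T1
        · exact Or.inr fun h11 => h9 ⟨h10, h11⟩
        · exact Or.inl h10
      refine ⟨h9.1, ?_⟩
      rw [← h9.2]
      exact h7
    · push Not at hne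
      refine ⟨0, ?_, fun _ => 0, fun x hx => absurd hx (hne x)⟩
      have : (0 : Ordinal.{u}) < (ℵ₀ : Cardinal.{u}).ord := by
        rw [Cardinal.ord_aleph0]; exact Ordinal.omega0_pos
      exact this.trans (Cardinal.ord_lt_ord.2 hB.dunc)
  have hWA : ∀ i < (succ G).ord, {ν | A ν i} ∈ W := by
    intro i hi
    have h1 := hSR D ℵ₀ K.ord W hB.dreg hB.dunc (by rw [hcof]; exact hDK.le) hW
      Cardinal.isRegular_aleph0 hB.dunc {γ | γ ∈ T ∧ s (t γ (g γ)) i} (hs2 i hi)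
    refine Filter.mem_of_superset (Filter.inter_mem h1 hLM) ?_
    rintro ν ⟨h2, h3⟩
    exact ⟨T, g, h3, h2⟩
  have h2 := hSH2 D (succ G) K.ord W A hB.dreg hB.dunc hSG hDG (by rw [hcof]; exact hDK.le) hW hA
    hfew hWA G.ord
    (by
      have : (0 : Ordinal.{u}) < (ℵ₀ : Cardinal.{u}).ord := by
        rw [Cardinal.ord_aleph0]; exact Ordinal.omega0_pos
      exact this.trans_le (Cardinal.ord_le_ord.2 hG0))
    (Cardinal.ord_lt_ord.2 (lt_succ G))
  refine Pool.Agent.H7.HD.P3.p3 h2 ?_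
  refine hB.ns ℵ₀ Cardinal.isRegular_aleph0 hB.dunc (succ G).ord ?_
  rw [hSG.cof_ord]
  exact lt_succ G

end Pool.Agent.H68.CP.HNO
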